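import Pool.Agent.H348Z.JordanEx

set_option autoImplicit false

namespace Pool.Agent.Results.MP_75529e_al.NotHereditary

/-- There is a commutative nonassociative ring `J` satisfying the Jordan identity, which is moreover
special (an additive group of `6 × 6` matrices over `ZMod 2` with the product `x y + y x`), which is
semiprime, and which has an ideal `I` containing a nonzero ideal `K` of the ring `I` with `K ^ 2 = 0`. -/
theorem result : ∃ (J : Type) (_ : NonUnitalNonAssocCommRing J),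
    (∀ x y : J, x * x * y * x = x * x * (y * x)) ∧
    (∃ φ : J →+ Matrix (Fin 6) (Fin 6) (ZMod 2), Function.Injective φ ∧
      ∀ x y : J, φ (x * y) = φ x * φ y + φ y * φ x) ∧
    (∀ K : AddSubgroup J, (∀ r : J, ∀ k ∈ K, r * k ∈ K) → (∀ a ∈ K, ∀ b ∈ K, a * b = 0) → K = ⊥) ∧
    ∃ I K : AddSubgroup J, (∀ r : J, ∀ i ∈ I, r * i ∈ I) ∧ K ≤ I ∧
      (∀ r ∈ I, ∀ k ∈ K, r * k ∈ K) ∧ K ≠ ⊥ ∧ ∀ a ∈ K, ∀ b ∈ K, a * b = 0 :=
  Pool.Agent.H348Z.JordanEx.main

end Pool.Agent.Results.MP_75529e_al.NotHereditary
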